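import Mathlib
import Pool.Agent.Q264.Irred

/-!
# No uniform bound for the number of irreducible components of a numerical semigroup

For every `N` and all large `m` the numerical semigroup `{0} ∪ [m, ∞)` is not the intersection of at most `N` irreducible
numerical semigroups.

The proof: let `{0} ∪ [m, ∞)` be the intersection of the irreducible numerical semigroups `T_1, ..., T_N`, and consider a
window `[m - w, m)`. For an irreducible `T` with Frobenius number `f` the reflection `x ↦ f - x` maps the elements of the
window which are not in `T` to elements of `T` below `w`. So if `T` misses a positive proportion of the window, then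
`T ∩ [0, w)` has positive density, and a submonoid of `ℕ` with positive density below `w` contains all multiples of a
bounded `g` beyond `C w` (consider it modulo its largest element `a < w`: the sets `2^j B ⊆ ℤ/a` grow by the factor
`3/2` until they are a subgroup). Hence `T` contains all multiples of `g` in the window. The multiples of `g` in the window
must be covered by the complements of the other `T_i`, and one of those misses a positive proportion of them, and so on.
After `N` steps all the multiples of a bounded number in the window lie in all the `T_i`, a contradiction.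
-/

set_option autoImplicit false

namespace Pool.Agent.Results.MP_b58a5b_nt.NoUniformBound

/-- a numerical semigroup: a submonoid of `ℕ` with finite complement -/
def IsNumericalSemigroup (S : AddSubmonoid ℕ) : Prop := ((S : Set ℕ)ᶜ).Finite

/-- an irreducible numerical semigroup: it is not the intersection of two numerical semigroups which contain it
properly -/
def IsIrreducible (S : AddSubmonoid ℕ) : Prop :=
  IsNumericalSemigroup S ∧ ¬ ∃ S₁ S₂ : AddSubmonoid ℕ,
    IsNumericalSemigroup S₁ ∧ IsNumericalSemigroup S₂ ∧ S < S₁ ∧ S < S₂ ∧ S = S₁ ⊓ S₂

/-- the numerical semigroup `{0} ∪ {m, m + 1, …}` -/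
def fromZero (m : ℕ) : AddSubmonoid ℕ where
  carrier := {x | x = 0 ∨ m ≤ x}
  zero_mem' := Or.inl rfl
  add_mem' := by
    rintro a b (rfl | ha) (rfl | hb)
    · exact Or.inl rfl
    · right; omega
    · right; omega
    · right; omega

/-- **There is no uniform bound.** For every `N` and all large `m` the numerical semigroup `{0} ∪ {m, m + 1, …}` is not an
intersection of `N` or fewer irreducible numerical semigroups. -/
theorem result : ∀ N : ℕ, ∃ m₀ : ℕ, ∀ m : ℕ, m₀ ≤ m → IsNumericalSemigroup (fromZero m) ∧
    ∀ k : ℕ, k ≤ N → ∀ T : Fin k → AddSubmonoid ℕ, (∀ i, IsIrreducible (T i)) → fromZero m ≠ ⨅ i, T i := by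
  intro N
  choose m₀ hm₀ using Q264.Irred.main
  refine ⟨∑ k ∈ Finset.range (N + 1), m₀ k, fun m hm => ⟨?_, ?_⟩⟩
  · refine (Set.finite_lt_nat m).subset ?_
    intro x hx
    by_contra h
    exact hx (Or.inr (not_lt.1 h))
  · intro k hk T hT heq
    have h1 : m₀ k ≤ m := by
      refine le_trans ?_ hm
      exact Finset.single_le_sum (f := m₀) (fun _ _ => Nat.zero_le _) (Finset.mem_range.2 (by omega))
    refine hm₀ k m h1 T hT fun x => ?_
    have h2 : x ∈ fromZero m ↔ ∀ i, x ∈ T i := by
      rw [heq, AddSubmonoid.mem_iInf]
    rw [← h2]
    exact Iff.rfl

end Pool.Agent.Results.MP_b58a5b_nt.NoUniformBound
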